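import Pool.Agent.Helper87.HD.Stmts

/-!
Module PIV of `/team-store/lecc_helper87_allD.md`: the pivot and the second order condition.
-/

set_option autoImplicit false

open Finset

namespace HD

variable {V : Type} [NormedAddCommGroup V] [InnerProductSpace ℂ V]

/-- the entry of `X` in the directions `a`, `b` -/
noncomputable def pvM {m : ℕ} (X : Fin m → Fin m → V) (a b : Fin m → ℂ) : V := ∑ i, ∑ j, (a i * b j) • X i j

theorem pv_norm_mulVec {m : ℕ} (A : Matrix (Fin m) (Fin m) ℂ) (hA : A ∈ Matrix.unitaryGroup (Fin m) ℂ)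
    (v : Fin m → ℂ) : ∑ k, ‖(A.mulVec v) k‖ ^ 2 = ∑ k, ‖v k‖ ^ 2 := by
  have key : ∀ u : Fin m → ℂ, ((∑ k, ‖u k‖ ^ 2 : ℝ) : ℂ) = star u ⬝ᵥ u := by
    intro u
    simp only [dotProduct, Pi.star_apply, RCLike.star_def]
    push_cast
    refine Finset.sum_congr rfl fun k _ => ?_
    rw [← Complex.conj_mul']
  have h1 : star A * A = 1 := (Matrix.mem_unitaryGroup_iff').1 hA
  have h2 : ((∑ k, ‖(A.mulVec v) k‖ ^ 2 : ℝ) : ℂ) = ((∑ k, ‖v k‖ ^ 2 : ℝ) : ℂ) := by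
    rw [key, key, Matrix.star_mulVec, ← Matrix.dotProduct_mulVec, Matrix.mulVec_mulVec]
    rw [show A.conjTranspose * A = 1 from h1, Matrix.one_mulVec]
  exact_mod_cast h2

theorem pv_transpose {m : ℕ} (A : Matrix (Fin m) (Fin m) ℂ) (hA : A ∈ Matrix.unitaryGroup (Fin m) ℂ) :
    A.transpose ∈ Matrix.unitaryGroup (Fin m) ℂ := by
  rw [Matrix.mem_unitaryGroup_iff]
  have h1 : star A * A = 1 := (Matrix.mem_unitaryGroup_iff').1 hA
  have h2 : star A.transpose = (star A).transpose := by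
    ext i j; simp [Matrix.star_apply]
  rw [h2, ← Matrix.transpose_mul, h1, Matrix.transpose_one]

theorem pv_mix {m : ℕ} (A B : Matrix (Fin m) (Fin m) ℂ) (X : Fin m → Fin m → V) (a b : Fin m → ℂ) :
    pvM (mix A X B) a b = pvM X (A.transpose.mulVec a) (B.mulVec b) := by
  unfold pvM mix
  simp only [Matrix.mulVec, dotProduct, Matrix.transpose_apply, Finset.smul_sum, smul_smul, Finset.sum_mul_sum,
    Finset.sum_smul]
  rw [Finset.sum_congr rfl fun i _ => Finset.sum_comm]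
  rw [Finset.sum_comm]
  refine Finset.sum_congr rfl fun k _ => ?_
  rw [Finset.sum_congr rfl fun i _ => Finset.sum_comm]
  rw [Finset.sum_comm]
  refine Finset.sum_congr rfl fun l _ => ?_
  refine Finset.sum_congr rfl fun i _ => ?_
  refine Finset.sum_congr rfl fun j _ => ?_
  congr 1
  ring

theorem pv_exists_max {m : ℕ} (X : Fin (m + 1) → Fin (m + 1) → V) :
    ∃ a b : Fin (m + 1) → ℂ, ∑ i, ‖a i‖ ^ 2 = 1 ∧ ∑ i, ‖b i‖ ^ 2 = 1 ∧
      ∀ a' b' : Fin (m + 1) → ℂ, ∑ i, ‖a' i‖ ^ 2 = 1 → ∑ i, ‖b' i‖ ^ 2 = 1 → ‖pvM X a' b'‖ ≤ ‖pvM X a b‖ := by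
  set S : Set (EuclideanSpace ℂ (Fin (m + 1))) := Metric.sphere 0 1 with hS
  have hmem : ∀ a : EuclideanSpace ℂ (Fin (m + 1)), a ∈ S ↔ ∑ i, ‖a i‖ ^ 2 = 1 := by
    intro a
    rw [hS, mem_sphere_zero_iff_norm, EuclideanSpace.norm_eq, Real.sqrt_eq_one]
  have hc : IsCompact (S ×ˢ S) := (isCompact_sphere _ _).prod (isCompact_sphere _ _)
  have hne : (S ×ˢ S).Nonempty := by
    have : (S : Set _).Nonempty := NormedSpace.sphere_nonempty.2 zero_le_one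
    exact this.prod this
  have hcont : ContinuousOn (fun p : EuclideanSpace ℂ (Fin (m + 1)) × EuclideanSpace ℂ (Fin (m + 1)) =>
      ‖pvM X p.1 p.2‖) (S ×ˢ S) := by
    apply Continuous.continuousOn
    unfold pvM
    fun_prop
  obtain ⟨p, hp, hmax⟩ := hc.exists_isMaxOn hne hcont
  refine ⟨p.1, p.2, (hmem _).1 hp.1, (hmem _).1 hp.2, fun a' b' ha' hb' => ?_⟩
  have h1 : ((WithLp.toLp 2 a', WithLp.toLp 2 b') : EuclideanSpace ℂ (Fin (m + 1)) × EuclideanSpace ℂ (Fin (m + 1)))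
      ∈ S ×ˢ S := ⟨(hmem _).2 ha', (hmem _).2 hb'⟩
  exact hmax h1

/-- homogeneous form of the maximum property -/
theorem pv_hom {m : ℕ} (X : Fin m → Fin m → V) (μ : ℝ)
    (h : ∀ a b : Fin m → ℂ, ∑ i, ‖a i‖ ^ 2 = 1 → ∑ i, ‖b i‖ ^ 2 = 1 → ‖pvM X a b‖ ≤ μ) (a b : Fin m → ℂ) :
    ‖pvM X a b‖ ^ 2 ≤ μ ^ 2 * (∑ i, ‖a i‖ ^ 2) * (∑ i, ‖b i‖ ^ 2) := by
  by_cases ha : ∑ i, ‖a i‖ ^ 2 = 0
  · have h0 : ∀ i, a i = 0 := by
      intro i
      have := (Finset.sum_eq_zero_iff_of_nonneg (fun i _ => by positivity)).1 ha i (Finset.mem_univ i)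
      simpa using this
    have : pvM X a b = 0 := by
      unfold pvM; simp [h0]
    rw [this, ha]; simp
  by_cases hb : ∑ i, ‖b i‖ ^ 2 = 0
  · have h0 : ∀ i, b i = 0 := by
      intro i
      have := (Finset.sum_eq_zero_iff_of_nonneg (fun i _ => by positivity)).1 hb i (Finset.mem_univ i)
      simpa using this
    have : pvM X a b = 0 := by
      unfold pvM; simp [h0]
    rw [this, hb]; simp
  have hsa : 0 < ∑ i, ‖a i‖ ^ 2 := lt_of_le_of_ne (Finset.sum_nonneg fun i _ => by positivity) (Ne.symm ha)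
  have hsb : 0 < ∑ i, ‖b i‖ ^ 2 := lt_of_le_of_ne (Finset.sum_nonneg fun i _ => by positivity) (Ne.symm hb)
  set s : ℝ := Real.sqrt (∑ i, ‖a i‖ ^ 2) with hs
  set t : ℝ := Real.sqrt (∑ i, ‖b i‖ ^ 2) with ht
  have hs0 : 0 < s := Real.sqrt_pos.2 hsa
  have ht0 : 0 < t := Real.sqrt_pos.2 hsb
  have hs2 : s ^ 2 = ∑ i, ‖a i‖ ^ 2 := Real.sq_sqrt hsa.le
  have ht2 : t ^ 2 = ∑ i, ‖b i‖ ^ 2 := Real.sq_sqrt hsb.le
  have hunit : ∀ (r : ℝ) (c : Fin m → ℂ), 0 < r → r ^ 2 = ∑ i, ‖c i‖ ^ 2 → ∑ i, ‖((r : ℂ)⁻¹ * c i)‖ ^ 2 = 1 := by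
    intro r c hr hr2
    have : ∀ i, ‖((r : ℂ)⁻¹ * c i)‖ ^ 2 = (r ^ 2)⁻¹ * ‖c i‖ ^ 2 := by
      intro i
      rw [norm_mul, norm_inv, Complex.norm_real, Real.norm_eq_abs, abs_of_pos hr]
      ring
    rw [Finset.sum_congr rfl fun i _ => this i, ← Finset.mul_sum, ← hr2]
    exact inv_mul_cancel₀ (by positivity)
  have h1 := h _ _ (hunit s a hs0 hs2) (hunit t b ht0 ht2)
  have h2 : pvM X (fun i => (s : ℂ)⁻¹ * a i) (fun i => (t : ℂ)⁻¹ * b i) = ((s : ℂ)⁻¹ * (t : ℂ)⁻¹) • pvM X a b := by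
    unfold pvM
    rw [Finset.smul_sum]
    refine Finset.sum_congr rfl fun i _ => ?_
    rw [Finset.smul_sum]
    refine Finset.sum_congr rfl fun j _ => ?_
    rw [smul_smul]; congr 1; ring
  rw [h2, norm_smul, norm_mul, norm_inv, norm_inv, Complex.norm_real, Complex.norm_real, Real.norm_eq_abs,
    Real.norm_eq_abs, abs_of_pos hs0, abs_of_pos ht0] at h1
  have h3 : ‖pvM X a b‖ ≤ μ * (s * t) := by
    rw [← div_le_iff₀ (by positivity)]
    calc ‖pvM X a b‖ / (s * t) = s⁻¹ * t⁻¹ * ‖pvM X a b‖ := by field_simp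
      _ ≤ μ := h1
  rw [← hs2, ← ht2]
  calc ‖pvM X a b‖ ^ 2 ≤ (μ * (s * t)) ^ 2 := by
        apply pow_le_pow_left₀ (norm_nonneg _) h3
    _ = μ ^ 2 * s ^ 2 * t ^ 2 := by ring

/-- the values of `pvM` on vectors `e_0 + a'`, `e_0 + b'` -/
theorem pv_expand {n : ℕ} (X : Fin (n + 1) → Fin (n + 1) → V) (a b : Fin n → ℂ) :
    pvM X (Fin.cons 1 a) (Fin.cons 1 b) = X 0 0 + (∑ i, a i • X i.succ 0) + (∑ j, b j • X 0 j.succ)
      + ∑ i, ∑ j, (a i * b j) • X i.succ j.succ := by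
  unfold pvM
  rw [Fin.sum_univ_succ]
  simp only [Fin.cons_zero, Fin.cons_succ, Fin.sum_univ_succ, one_mul, mul_one, one_smul, Finset.sum_add_distrib]
  abel

/-- the elementary first order lemma -/
theorem pv_first (w y : V) (h : ∀ t : ℂ, ‖w + t • y‖ ^ 2 ≤ ‖w‖ ^ 2 * (1 + ‖t‖ ^ 2)) : inner ℂ w y = 0 := by
  by_contra hne
  set c : ℂ := inner ℂ w y with hc
  have hc0 : 0 < ‖c‖ ^ 2 := by positivity
  have key : ∀ ε : ℝ, 0 < ε → 2 * ‖c‖ ^ 2 ≤ ε * (‖w‖ ^ 2 * ‖c‖ ^ 2) := by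
    intro ε hε
    have h1 := h ((ε : ℂ) * starRingEnd ℂ c)
    rw [@norm_add_sq ℂ, inner_smul_right] at h1
    have h2 : RCLike.re ((ε : ℂ) * starRingEnd ℂ c * inner ℂ w y) = ε * ‖c‖ ^ 2 := by
      rw [← hc, mul_assoc, Complex.conj_mul']
      simp [← Complex.ofReal_pow]
    rw [h2, norm_mul, Complex.norm_real, Real.norm_eq_abs, abs_of_pos hε, RCLike.norm_conj] at h1
    have h3 : 2 * (ε * ‖c‖ ^ 2) ≤ ε * (ε * (‖w‖ ^ 2 * ‖c‖ ^ 2)) := by
      have h4 : 0 ≤ ‖((ε : ℂ) * starRingEnd ℂ c) • y‖ ^ 2 := by positivity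
      nlinarith [h1, h4]
    have h5 : ε * (2 * ‖c‖ ^ 2) ≤ ε * (ε * (‖w‖ ^ 2 * ‖c‖ ^ 2)) := by linarith
    exact le_of_mul_le_mul_left h5 hε
  have h6 := key (1 / (‖w‖ ^ 2 + 1)) (by positivity)
  have h7 : 1 / (‖w‖ ^ 2 + 1) * (‖w‖ ^ 2 * ‖c‖ ^ 2) ≤ ‖c‖ ^ 2 := by
    rw [div_mul_eq_mul_div, one_mul, div_le_iff₀ (by positivity)]
    nlinarith [hc0]
  linarith

/-- averaging over four phases -/
theorem pv_avg (w p q r : V) (K : ℝ)
    (h1 : ‖w + p + q + r‖ ^ 2 ≤ K) (h2 : ‖w + -p + -q + r‖ ^ 2 ≤ K)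
    (h3 : ‖w + Complex.I • p + -(Complex.I • q) + r‖ ^ 2 ≤ K)
    (h4 : ‖w + -(Complex.I • p) + Complex.I • q + r‖ ^ 2 ≤ K) :
    ‖w + r‖ ^ 2 + ‖p‖ ^ 2 + ‖q‖ ^ 2 ≤ K := by
  have e1 : ∀ u v : V, ‖u + v‖ ^ 2 + ‖u + -v‖ ^ 2 = 2 * ‖u‖ ^ 2 + 2 * ‖v‖ ^ 2 := by
    intro u v
    have := parallelogram_law_with_norm ℂ u v
    rw [← sub_eq_add_neg]
    nlinarith [this]
  have a1 := e1 (w + r) (p + q)
  have a2 := e1 (w + r) (Complex.I • p + -(Complex.I • q))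
  have a3 : ‖p + q‖ ^ 2 + ‖Complex.I • p + -(Complex.I • q)‖ ^ 2 = 2 * ‖p‖ ^ 2 + 2 * ‖q‖ ^ 2 := by
    have h5 : Complex.I • p + -(Complex.I • q) = Complex.I • (p + -q) := by
      rw [smul_add, smul_neg]
    rw [h5, norm_smul, Complex.norm_I, one_mul, e1]
  have b1 : w + p + q + r = w + r + (p + q) := by abel
  have b2 : w + -p + -q + r = w + r + -(p + q) := by abel
  have b3 : w + Complex.I • p + -(Complex.I • q) + r = w + r + (Complex.I • p + -(Complex.I • q)) := by abel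
  have b4 : w + -(Complex.I • p) + Complex.I • q + r = w + r + -(Complex.I • p + -(Complex.I • q)) := by abel
  rw [b1] at h1
  rw [b2] at h2
  rw [b3] at h3
  rw [b4] at h4
  linarith

theorem st_PIV (hDET : ST_DET) (hUNT : ST_UNT) (_hORT : ST_ORT) : ST_PIV := by
  intro V _ _ _ n Φ X hS hX
  obtain ⟨a₀, b₀, ha₀, hb₀, hmax⟩ := pv_exists_max X
  obtain ⟨A, hA, hA0⟩ := hUNT.2 n a₀ ha₀
  obtain ⟨B', hB', hB0⟩ := hUNT.2 n b₀ hb₀
  have hB : B'.transpose ∈ Matrix.unitaryGroup (Fin (n + 1)) ℂ := pv_transpose B' hB'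
  refine ⟨A, hA, B'.transpose, hB, ?_⟩
  set B := B'.transpose with hBdef
  set Y := mix A X B with hY
  -- the maximiser
  have hdet : ∀ C ∈ Matrix.unitaryGroup (Fin (n + 1)) ℂ, ‖C.det‖ = 1 := by
    intro C hC
    have h1 : star C * C = 1 := (Matrix.mem_unitaryGroup_iff').1 hC
    have h2 : star C.det * C.det = 1 := by
      have := congrArg Matrix.det h1
      rwa [Matrix.det_mul, Matrix.det_one, Matrix.star_eq_conjTranspose, Matrix.det_conjTranspose] at this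
    have h3 : ‖C.det‖ * ‖C.det‖ = 1 := by
      have := congrArg norm h2
      rwa [norm_mul, norm_star, norm_one] at this
    nlinarith [norm_nonneg C.det]
  have hfY : ‖fdet Φ Y‖ = ‖fdet Φ X‖ := by
    rw [hY, (hDET V (n + 1) Φ hS).1 A B X, norm_mul, norm_mul, hdet A hA, hdet B hB]
    ring
  have hIsMax : IsMax Φ Y := by
    refine ⟨?_, ?_, ?_⟩
    · rw [hY, hUNT.1 V (n + 1) A B X hA hB]
      exact hX.1
    · intro h0
      have : ‖fdet Φ X‖ = 0 := by rw [← hfY, h0, norm_zero]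
      exact hX.2.1 (norm_eq_zero.1 this)
    · intro Z hZ
      rw [hfY]
      exact hX.2.2 Z hZ
  -- the entry
  have hY00 : Y 0 0 = pvM X a₀ b₀ := by
    rw [hY]
    unfold mix pvM
    refine Finset.sum_congr rfl fun k _ => ?_
    refine Finset.sum_congr rfl fun l _ => ?_
    rw [hA0, hBdef, Matrix.transpose_apply, hB0]
  have hmaxY : ∀ a b : Fin (n + 1) → ℂ, ∑ i, ‖a i‖ ^ 2 = 1 → ∑ i, ‖b i‖ ^ 2 = 1 → ‖pvM Y a b‖ ≤ ‖Y 0 0‖ := by
    intro a b ha hb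
    rw [hY00, hY, pv_mix]
    apply hmax
    · rw [pv_norm_mulVec _ (pv_transpose A hA)]; exact ha
    · rw [pv_norm_mulVec _ hB]; exact hb
  have hhom := pv_hom Y ‖Y 0 0‖ hmaxY
  have hsq : ∀ c : Fin n → ℂ, ∑ i, ‖(Fin.cons 1 c : Fin (n + 1) → ℂ) i‖ ^ 2 = 1 + ∑ i, ‖c i‖ ^ 2 := by
    intro c
    rw [Fin.sum_univ_succ]
    simp
  -- combined inequality
  have hmain : ∀ a b : Fin n → ℂ, ‖Y 0 0 + (∑ i, a i • Y i.succ 0) + (∑ j, b j • Y 0 j.succ)
      + ∑ i, ∑ j, (a i * b j) • Y i.succ j.succ‖ ^ 2 ≤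
      ‖Y 0 0‖ ^ 2 * (1 + ∑ i, ‖a i‖ ^ 2) * (1 + ∑ i, ‖b i‖ ^ 2) := by
    intro a b
    have := hhom (Fin.cons 1 a) (Fin.cons 1 b)
    rwa [pv_expand, hsq, hsq] at this
  refine ⟨hIsMax, ?_, ?_, ?_, ?_⟩
  · intro a b ha hb
    exact hmaxY a b ha hb
  · intro i
    apply pv_first
    intro t
    have h := hmain (Pi.single i t) 0
    have h1 : ∑ k, (Pi.single i t : Fin n → ℂ) k • Y k.succ 0 = t • Y i.succ 0 := by
      rw [Finset.sum_eq_single i]
      · simp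
      · intro k _ hk; simp [Pi.single_eq_of_ne hk]
      · intro hi; exact absurd (Finset.mem_univ i) hi
    have h2 : ∑ k, ‖(Pi.single i t : Fin n → ℂ) k‖ ^ 2 = ‖t‖ ^ 2 := by
      rw [Finset.sum_eq_single i]
      · simp
      · intro k _ hk; simp [Pi.single_eq_of_ne hk]
      · intro hi; exact absurd (Finset.mem_univ i) hi
    rw [h1, h2] at h
    simpa using h
  · intro j
    apply pv_first
    intro t
    have h := hmain 0 (Pi.single j t)
    have h1 : ∑ k, (Pi.single j t : Fin n → ℂ) k • Y 0 k.succ = t • Y 0 j.succ := by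
      rw [Finset.sum_eq_single j]
      · simp
      · intro k _ hk; simp [Pi.single_eq_of_ne hk]
      · intro hi; exact absurd (Finset.mem_univ j) hi
    have h2 : ∑ k, ‖(Pi.single j t : Fin n → ℂ) k‖ ^ 2 = ‖t‖ ^ 2 := by
      rw [Finset.sum_eq_single j]
      · simp
      · intro k _ hk; simp [Pi.single_eq_of_ne hk]
      · intro hi; exact absurd (Finset.mem_univ j) hi
    rw [h1, h2] at h
    simpa using h
  · intro j
    set w := Y 0 0 with hw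
    set q := Y 0 j.succ with hq
    set a : Fin n → ℂ := fun i => starRingEnd ℂ (inner ℂ w (Y i.succ j.succ)) with ha
    set σ : ℝ := ∑ i : Fin n, ‖inner ℂ w (Y i.succ j.succ)‖ ^ 2 with hσ
    have hσ0 : 0 ≤ σ := Finset.sum_nonneg fun i _ => by positivity
    set p : V := ∑ i, a i • Y i.succ 0 with hp
    set r : V := ∑ i, a i • Y i.succ j.succ with hr
    have hna : ∑ i, ‖a i‖ ^ 2 = σ := by
      refine Finset.sum_congr rfl fun i _ => ?_
      rw [ha]; simp only [RCLike.norm_conj]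
    have hwr : inner ℂ w r = (σ : ℂ) := by
      rw [hr, inner_sum, hσ]
      push_cast
      refine Finset.sum_congr rfl fun i _ => ?_
      rw [inner_smul_right, ha]
      simp only
      rw [Complex.conj_mul']
    -- the inequality with scalars
    have hsc : ∀ s t : ℂ, ‖w + s • p + t • q + (s * t) • r‖ ^ 2 ≤
        ‖w‖ ^ 2 * (1 + ‖s‖ ^ 2 * σ) * (1 + ‖t‖ ^ 2) := by
      intro s t
      have h := hmain (fun i => s * a i) (Pi.single j t)
      have h1 : ∑ k, (Pi.single j t : Fin n → ℂ) k • Y 0 k.succ = t • q := by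
        rw [Finset.sum_eq_single j]
        · simp [hq]
        · intro k _ hk; simp [Pi.single_eq_of_ne hk]
        · intro hi; exact absurd (Finset.mem_univ j) hi
      have h2 : ∑ k, ‖(Pi.single j t : Fin n → ℂ) k‖ ^ 2 = ‖t‖ ^ 2 := by
        rw [Finset.sum_eq_single j]
        · simp
        · intro k _ hk; simp [Pi.single_eq_of_ne hk]
        · intro hi; exact absurd (Finset.mem_univ j) hi
      have h3 : ∑ i, (s * a i) • Y i.succ 0 = s • p := by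
        rw [hp, Finset.smul_sum]
        exact Finset.sum_congr rfl fun i _ => by rw [smul_smul]
      have h4 : ∑ i, ∑ k, (s * a i * (Pi.single j t : Fin n → ℂ) k) • Y i.succ k.succ = (s * t) • r := by
        rw [hr, Finset.smul_sum]
        refine Finset.sum_congr rfl fun i _ => ?_
        rw [Finset.sum_eq_single j]
        · rw [smul_smul, Pi.single_eq_same]; congr 1; ring
        · intro k _ hk; simp [Pi.single_eq_of_ne hk]
        · intro hi; exact absurd (Finset.mem_univ j) hi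
      have h5 : ∑ i, ‖s * a i‖ ^ 2 = ‖s‖ ^ 2 * σ := by
        rw [← hna, Finset.mul_sum]
        refine Finset.sum_congr rfl fun i _ => ?_
        rw [norm_mul]; ring
      rw [h1, h2, h3, h4, h5] at h
      exact h
    have hst : ∀ s t : ℝ, ‖w + ((s : ℂ) * t) • r‖ ^ 2 + ‖(s : ℂ) • p‖ ^ 2 + ‖(t : ℂ) • q‖ ^ 2 ≤
        ‖w‖ ^ 2 * (1 + s ^ 2 * σ) * (1 + t ^ 2) := by
      intro s t
      have hns : ‖(s : ℂ)‖ ^ 2 = s ^ 2 := by rw [Complex.norm_real]; exact sq_abs s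
      have hnt : ‖(t : ℂ)‖ ^ 2 = t ^ 2 := by rw [Complex.norm_real]; exact sq_abs t
      apply pv_avg
      · have h := hsc s t
        rwa [hns, hnt] at h
      · have h := hsc (-s) (-t)
        rw [norm_neg, norm_neg, hns, hnt, neg_smul, neg_smul, neg_mul_neg] at h
        exact h
      · have h := hsc (Complex.I * s) (-(Complex.I * t))
        rw [norm_neg, norm_mul, norm_mul, Complex.norm_I, one_mul, one_mul, hns, hnt, neg_smul, mul_smul, mul_smul] at h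
        have e : Complex.I * (s : ℂ) * -(Complex.I * (t : ℂ)) = (s : ℂ) * t := by
          linear_combination (-(s : ℂ) * t) * Complex.I_mul_I
        rw [e] at h
        exact h
      · have h := hsc (-(Complex.I * s)) (Complex.I * t)
        rw [norm_neg, norm_mul, norm_mul, Complex.norm_I, one_mul, one_mul, hns, hnt, neg_smul, mul_smul, mul_smul] at h
        have e : -(Complex.I * (s : ℂ)) * (Complex.I * (t : ℂ)) = (s : ℂ) * t := by
          linear_combination (-(s : ℂ) * t) * Complex.I_mul_I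
        rw [e] at h
        exact h
    have hreal : ∀ s t : ℝ, 2 * (s * t * σ) + t ^ 2 * ‖q‖ ^ 2 ≤
        ‖w‖ ^ 2 * (s ^ 2 * σ + t ^ 2 + s ^ 2 * t ^ 2 * σ) := by
      intro s t
      have h := hst s t
      rw [@norm_add_sq ℂ, inner_smul_right, hwr] at h
      have h2 : RCLike.re ((s : ℂ) * (t : ℂ) * (σ : ℂ)) = s * t * σ := by
        rw [← Complex.ofReal_mul, ← Complex.ofReal_mul]
        exact Complex.ofReal_re _
      have h3 : ‖(t : ℂ) • q‖ ^ 2 = t ^ 2 * ‖q‖ ^ 2 := by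
        rw [norm_smul, mul_pow, Complex.norm_real]
        congr 1
        exact sq_abs t
      rw [h2, h3] at h
      have h4 : 0 ≤ ‖((s : ℂ) * (t : ℂ)) • r‖ ^ 2 := by positivity
      have h5 : 0 ≤ ‖(s : ℂ) • p‖ ^ 2 := by positivity
      nlinarith [h, h4, h5]
    -- scaling
    have hlim : 2 * (‖w‖ ^ 2 * σ) + ‖w‖ ^ 4 * ‖q‖ ^ 2 ≤ ‖w‖ ^ 2 * (σ + ‖w‖ ^ 4) := by
      apply le_of_forall_pos_le_add
      intro δ hδ
      set Z : ℝ := ‖w‖ ^ 2 * (‖w‖ ^ 4 * σ) with hZ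
      have hZ0 : 0 ≤ Z := by positivity
      set ε : ℝ := Real.sqrt (δ / (Z + 1)) with hε
      have hε2 : ε ^ 2 = δ / (Z + 1) := Real.sq_sqrt (by positivity)
      have hε0 : 0 < ε ^ 2 := by rw [hε2]; positivity
      have h := hreal ε (ε * ‖w‖ ^ 2)
      have h1 : ε ^ 2 * (2 * (‖w‖ ^ 2 * σ) + ‖w‖ ^ 4 * ‖q‖ ^ 2) ≤
          ε ^ 2 * (‖w‖ ^ 2 * (σ + ‖w‖ ^ 4) + ε ^ 2 * Z) := by
        have e1 : 2 * (ε * (ε * ‖w‖ ^ 2) * σ) + (ε * ‖w‖ ^ 2) ^ 2 * ‖q‖ ^ 2 =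
          ε ^ 2 * (2 * (‖w‖ ^ 2 * σ) + ‖w‖ ^ 4 * ‖q‖ ^ 2) := by ring
        have e2 : ‖w‖ ^ 2 * (ε ^ 2 * σ + (ε * ‖w‖ ^ 2) ^ 2 + ε ^ 2 * (ε * ‖w‖ ^ 2) ^ 2 * σ) =
          ε ^ 2 * (‖w‖ ^ 2 * (σ + ‖w‖ ^ 4) + ε ^ 2 * Z) := by rw [hZ]; ring
        rw [e1, e2] at h
        exact h
      have h2 := le_of_mul_le_mul_left h1 hε0
      have h3 : ε ^ 2 * Z ≤ δ := by
        rw [hε2, div_mul_eq_mul_div, div_le_iff₀ (by positivity)]
        nlinarith
      linarith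
    by_cases hw0 : ‖w‖ = 0
    · have hwz : w = 0 := norm_eq_zero.1 hw0
      have : σ = 0 := by
        rw [hσ]
        apply Finset.sum_eq_zero
        intro i _
        rw [hwz, inner_zero_left, norm_zero]; norm_num
      rw [this, hw0]
      norm_num
    · have hwp : 0 < ‖w‖ ^ 2 := by positivity
      have h1 : ‖w‖ ^ 2 * (σ + ‖w‖ ^ 2 * ‖q‖ ^ 2) ≤ ‖w‖ ^ 2 * ‖w‖ ^ 4 := by nlinarith [hlim]
      exact le_of_mul_le_mul_left h1 hwp

end HD
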